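import Mathlib
import Pool.Agent.Q131.PF.Main

set_option autoImplicit false

namespace Pool.Agent.Results.MP_797cb5_co.HappyEdgesFail

open Pool.Agent.Q131.PF

lemma card_S16 : S16.card = 16 := by
  unfold S16
  rw [Finset.card_image_of_injOn, Finset.card_range]
  intro i hi j hj h
  simp only [Finset.coe_range, Set.mem_Iio] at hi hj
  exact pt_inj hi hj h

/-- There are 16 points in the plane and two triangulations `T`, `T'` of them such that some path
of 11 parallel flips leads from `T` to `T'`, while every path whose intermediate triangulations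
contain all edges common to `T` and `T'` has at least 12 flips; so every shortest path has an
intermediate triangulation that misses a common edge. -/
theorem result : ∃ (S : Finset Pt) (T T' : Set (Sym2 Pt)),
    S.card = 16 ∧ IsTriangulation S T ∧ IsTriangulation S T' ∧
    (∃ γ, IsPath S T T' 11 γ) ∧
    (∀ ℓ γ, IsPath S T T' ℓ γ → (∀ i, 0 < i → i < ℓ → T ∩ T' ⊆ γ i) → 12 ≤ ℓ) ∧
    (∃ ℓ γ, IsShortest S T T' ℓ γ) ∧
    ∀ ℓ γ, IsShortest S T T' ℓ γ → ∃ i, 0 < i ∧ i < ℓ ∧ ¬ T ∩ T' ⊆ γ i := by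
  classical
  refine ⟨S16, T0, T1, card_S16, T0_tri, T1_tri, ⟨_, short_path⟩,
    fun ℓ γ h1 h2 => long_path h1 h2, ?_, ?_⟩
  · have hex : ∃ ℓ, ∃ γ, IsPath S16 T0 T1 ℓ γ := ⟨11, _, short_path⟩
    obtain ⟨γ, hγ⟩ := Nat.find_spec hex
    exact ⟨Nat.find hex, γ, hγ, fun ℓ' γ' h' => Nat.find_min' hex ⟨γ', h'⟩⟩
  · intro ℓ γ h
    by_contra hcon
    push Not at hcon
    have h1 := long_path h.1 (fun i hi hi' => hcon i hi hi')
    have h2 := h.2 11 _ short_path
    omega

end Pool.Agent.Results.MP_797cb5_co.HappyEdgesFail
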